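import Pool.Agent.H88.L.W552.AS
import Pool.Agent.H88.L.W552.WOp
import Pool.Agent.H88.L.H447R3.AoC

/-!
# Polarized varieties satisfying the Lefschetz standard conjecture
-/

open CategoryTheory AlgebraicGeometry

universe u v w

namespace Pool.Agent.W552

open Pool.Agent.H914 Pool.Agent.H914.VarClass Pool.Agent.H914.VarClass.Obj
  Pool.Agent.H914.WeilCohomology Pool.Agent.H281R3.HT Pool.Agent.H447

section Abs

variable {K : Type*} [Field K] [CharZero K] {V : Type*} [AddCommGroup V] [Module K V]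
  {gr : ℕ → Submodule K V}

/-- Eigenvectors of the weight operator are homogeneous. -/
lemma mem_gr_of_wt (h : DirectSum.IsInternal gr) {n : ℕ} (hbd : ∀ i, 2 * n + 1 ≤ i → gr i = ⊥)
    {μ : K} {y : V} (hy : wt h n y = μ • y) :
    (∀ j : ℕ, μ = (j : K) - n → y ∈ gr j) ∧ ((∀ j : ℕ, μ ≠ (j : K) - n) → y = 0) := by
  have hsum := sum_proj h (N := 2 * n + 1) hbd
  have hy2 : y = ∑ i ∈ Finset.range (2 * n + 1), proj h i y := by
    have := congrArg (fun F => F y) hsum
    simp only [LinearMap.sum_apply, Module.End.one_apply] at this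
    exact this.symm
  have hcomm : ∀ i, wt h n (proj h i y) = proj h i (wt h n y) := by
    intro i
    have h1 := (isHom_scal (K := K) h (fun i => ((node n i : ℚ) : K))).proj_comm h i
    have h2 := congrArg (fun F => F y) h1
    exact h2.symm
  have hz : ∀ i : ℕ, μ ≠ (i : K) - n → proj h i y = 0 := by
    intro i hi
    have h1 := hcomm i
    rw [hy, map_smul, wt, scal_apply _ _ (proj_mem h i y), node] at h1
    have h2 : (μ - ((i : K) - n)) • proj h i y = 0 := by
      rw [sub_smul, ← h1]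
      push_cast
      rw [sub_self]
    rcases smul_eq_zero.1 h2 with h3 | h3
    · exact absurd (sub_eq_zero.1 h3) hi
    · exact h3
  constructor
  · intro j hj
    rw [hy2]
    apply Submodule.sum_mem
    intro i _
    by_cases hij : i = j
    · subst hij; exact proj_mem h i y
    · rw [hz i]
      · exact Submodule.zero_mem _
      · rw [hj]
        intro h0
        apply hij
        have : (j : K) = i := by linear_combination h0
        exact_mod_cast this.symm
  · intro hall
    rw [hy2]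
    exact Finset.sum_eq_zero (fun i _ => hz i (hall i))

/-- Surjectivity of the powers of the raising operator on a rational structure stable under the
two operators. -/
theorem exists_preimage' [Module.Finite K V] {H e f : Module.End K V} (t : Sl2 H e f)
    {P : ℤ → V → Prop} (hP0 : ∀ d, P d 0) (hPadd : ∀ {d x y}, P d x → P d y → P d (x + y))
    (hPsmul : ∀ (q : ℚ) {d x}, P d x → P d ((q : K) • x))
    (hPe : ∀ {d x}, P d x → P (d + 2) (e x)) (hPf : ∀ {d x}, P d x → P (d - 2) (f x))
    (hPH : ∀ {d x}, P d x → H x = (d : K) • x) (m : ℕ) {y : V} (hy : P m y) :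
    ∃ z, P (-m) z ∧ (e ^ m) z = y := by
  have hPep : ∀ (r : ℕ) {d x}, P d x → P (d + 2 * r) ((e ^ r) x) := by
    intro r
    induction r with
    | zero => intro d x hx; simpa using hx
    | succ r ih =>
      intro d x hx
      rw [pow_succ', Module.End.mul_apply]
      have := hPe (ih hx)
      rwa [show d + 2 * (r : ℤ) + 2 = d + 2 * ((r + 1 : ℕ) : ℤ) by push_cast; ring] at this
  have hPfp : ∀ (r : ℕ) {d x}, P d x → P (d - 2 * r) ((f ^ r) x) := by
    intro r
    induction r with
    | zero => intro d x hx; simpa using hx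
    | succ r ih =>
      intro d x hx
      rw [pow_succ', Module.End.mul_apply]
      have := hPf (ih hx)
      rwa [show d - 2 * (r : ℤ) - 2 = d - 2 * ((r + 1 : ℕ) : ℤ) by push_cast; ring] at this
  have key : ∀ s : ℕ, ∀ y, P m y → (e ^ s) y = 0 → ∃ z, P (-m) z ∧ (e ^ m) z = y := by
    intro s
    induction s with
    | zero =>
      intro y _ h0
      refine ⟨0, hP0 _, ?_⟩
      rw [map_zero]
      simpa using h0.symm
    | succ s ih =>
      intro y hy h0
      set w := (e ^ s) y with hw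
      have hwP : P (m + 2 * s) w := hPep s hy
      have hHw : H w = ((m + 2 * s : ℕ) : K) • w := by
        rw [hPH hwP]
        congr 1
        push_cast; ring
      have hew : e w = 0 := by rw [hw, ← Module.End.mul_apply, ← pow_succ']; exact h0
      obtain ⟨c₁, hc₁, h1⟩ := e_pow_f_pow t hHw hew (k := m + s) (by omega) m (by omega)
      obtain ⟨c₂, hc₂, h2⟩ := e_pow_f_pow t hHw hew (k := s) (by omega) s le_rfl
      rw [Nat.add_sub_cancel_left] at h1
      rw [Nat.sub_self, pow_zero, Module.End.one_apply] at h2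
      have hfs : P m ((f ^ s) w) := by
        have := hPfp s hwP
        rwa [add_sub_cancel_right] at this
      obtain ⟨z', hz', hz''⟩ := ih (y + ((-c₂⁻¹ : ℚ) : K) • (f ^ s) w)
        (hPadd hy (hPsmul _ hfs)) (by
          rw [map_add, map_smul, h2, smul_smul, ← Rat.cast_mul, neg_mul, inv_mul_cancel₀ hc₂,
            Rat.cast_neg, Rat.cast_one, neg_one_smul, ← hw, add_neg_cancel])
      refine ⟨z' + ((c₂⁻¹ * c₁⁻¹ : ℚ) : K) • (f ^ (m + s)) w, hPadd hz' (hPsmul _ ?_), ?_⟩
      · have := hPfp (m + s) hwP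
        rwa [show (m : ℤ) + 2 * s - 2 * ((m + s : ℕ) : ℤ) = -m by push_cast; ring] at this
      · rw [map_add, map_smul, h1, hz'', smul_smul, ← Rat.cast_mul, mul_assoc,
          inv_mul_cancel₀ hc₁, mul_one, add_assoc, ← add_smul, Rat.cast_neg, neg_add_cancel,
          zero_smul, add_zero]
  obtain ⟨N, hN⟩ := t.nil_e
  exact key N y hy (by rw [hN, LinearMap.zero_apply])

end Abs

lemma wt_w_aux {A : Type*} [Ring A] {h e f w : A} (hef : e * f - f * e = h)
    (h1 : w * e = -(f * w)) (h2 : w * f = -(e * w)) : w * h = -(h * w) := by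
  rw [← hef]
  calc w * (e * f - f * e) = (w * e) * f - (w * f) * e := by noncomm_ring
    _ = (-(f * w)) * f - (-(e * w)) * e := by rw [h1, h2]
    _ = -(f * (w * f)) + e * (w * e) := by noncomm_ring
    _ = -(f * (-(e * w))) + e * (-(f * w)) := by rw [h1, h2]
    _ = _ := by noncomm_ring

variable {k : Type u} [Field k] {𝒱 : VarClass k} {ops : CycleOps 𝒱}
  {W : WeilCohomology.{u, v} ops} {X Y Z : 𝒱.Obj}

/-- A polarized variety with an algebraic lowering operator. -/
structure Fr (W : WeilCohomology.{u, v} ops) (X : 𝒱.Obj) (D : X.Cycles)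
    (f : Module.End W.K (W.H X)) : Prop where
  hD : X.IsCyc 1 D
  sl2 : Sl2 (wt (W.isInternal X) X.dim) (LinearMap.mulLeft W.K (W.cl X D)) f
  aop : AOp W X X f

/-- The star operator. -/
noncomputable def st (W : WeilCohomology.{u, v} ops) (X : 𝒱.Obj) (D : X.Cycles)
    (f : Module.End W.K (W.H X)) : Module.End W.K (W.H X) :=
  star' (W.isInternal X) (LinearMap.mulLeft W.K (W.cl X D)) f

/-- The form `tr (a * star b)`. -/
noncomputable def bf (W : WeilCohomology.{u, v} ops) (X : 𝒱.Obj) (D : X.Cycles)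
    (f : Module.End W.K (W.H X)) : W.H X →ₗ[W.K] W.H X →ₗ[W.K] W.K :=
  (bil W X).compl₂ (st W X D f)

lemma bf_apply {D : X.Cycles} {f : Module.End W.K (W.H X)} (a b : W.H X) :
    bf W X D f a b = W.tr X (a * st W X D f b) := rfl

lemma st_apply {D : X.Cycles} {f : Module.End W.K (W.H X)} {i : ℕ} {a : W.H X}
    (ha : a ∈ W.gr X i) : st W X D f a = (sg i : W.K) • wop W X D f a := LefStr.star_apply ha

/-- Existence of the lowering operator. -/
lemma exists_fr {D : X.Cycles} (hD : X.IsCyc 1 D) (hHL : HardLefschetz W X D)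
    (hB : LefschetzB W X D) : ∃ f, Fr W X D f ∧
      LefStr (W.isInternal X) X.dim (LinearMap.mulLeft W.K (W.cl X D)) f := by
  have hLR := rop_mulLeft (W := W) hD
  have hLh : IsHom (W.gr X) 2 (LinearMap.mulLeft W.K (W.cl X D)) := by
    simpa using rop_opAlg.hom hLR
  obtain ⟨f, t, hf, hfv⟩ := exists_sl2 (W.isInternal X) hLh W_hbd hHL
  obtain ⟨Φ, hΦ, hLam⟩ := lefschetzB_iff_rop.1 hB
  have h1 : ROp W X (-1) f :=
    lower_of_lam rop_opAlg (W.isInternal X) W_hbd hLR hHL hΦ hLam hfv
  exact ⟨f, ⟨hD, t, AOp.of_rop h1⟩, ⟨hLh, W_hbd, hHL, t⟩⟩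

namespace Fr

variable {D : X.Cycles} {f : Module.End W.K (W.H X)} (F : Fr W X D f)

include F

lemma Lop : AOp W X X (LinearMap.mulLeft W.K (W.cl X D)) := AOp.of_rop (rop_mulLeft F.hD)

lemma wop_aop : AOp W X X (wop W X D f) := AOp.wey F.Lop F.aop F.sl2.nil_e F.sl2.nil_f

lemma wt_w : wop W X D f * wt (W.isInternal X) X.dim =
    -(wt (W.isInternal X) X.dim * wop W X D f) := by
  exact wt_w_aux F.sl2.ef (wey_e F.sl2) (wey_f F.sl2)

omit F in
lemma wt_gr {i : ℕ} {a : W.H X} (ha : a ∈ W.gr X i) :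
    wt (W.isInternal X) X.dim a = ((i : W.K) - X.dim) • a := by
  rw [wt, scal_apply _ _ ha, node]
  push_cast
  rfl

lemma w_mem {i : ℕ} (hi : i ≤ 2 * X.dim) {a : W.H X} (ha : a ∈ W.gr X i) :
    wop W X D f a ∈ W.gr X (2 * X.dim - i) := by
  have h1 := congrArg (fun G => G a) F.wt_w
  simp only [Module.End.mul_apply, LinearMap.neg_apply, wt_gr ha, map_smul] at h1
  have h2 : wt (W.isInternal X) X.dim (wop W X D f a) =
      ((X.dim : W.K) - i) • wop W X D f a := by
    rw [← neg_neg (wt (W.isInternal X) X.dim _), ← h1, ← neg_smul, neg_sub]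
  refine (mem_gr_of_wt (W.isInternal X) W_hbd h2).1 _ ?_
  rw [Nat.cast_sub hi]
  push_cast
  ring

lemma w_alg {j : ℕ} (hj : j ≤ X.dim) {a : W.H X} (ha : a ∈ algClasses W X j) :
    wop W X D f a ∈ algClasses W X (X.dim - j) := by
  apply (F.wop_aop.apply (AS.of ha)).alg
  rw [show 2 * (X.dim - j) = 2 * X.dim - 2 * j by omega]
  exact F.w_mem (by omega) (alg_gr ha)

lemma f_gr {i : ℕ} {a : W.H X} (ha : a ∈ W.gr X i) :
    (∀ j, j + 2 = i → f a ∈ W.gr X j) ∧ (i < 2 → f a = 0) := by
  have h1 := congrArg (fun G => G a) F.sl2.hf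
  simp only [LinearMap.sub_apply, Module.End.mul_apply, LinearMap.neg_apply, wt_gr ha,
    map_smul] at h1
  have h2 : (2 : Module.End W.K (W.H X)) (f a) = (2 : W.K) • f a := by
    rw [ofNat_smul_eq_nsmul]; rfl
  have h3 : wt (W.isInternal X) X.dim (f a) = ((i : W.K) - X.dim - 2) • f a := by
    rw [h2, sub_eq_iff_eq_add] at h1
    rw [h1, ← neg_smul, ← add_smul]
    congr 1
    ring
  have h4 := mem_gr_of_wt (W.isInternal X) W_hbd h3
  constructor
  · intro j hj
    apply h4.1
    rw [← hj]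
    push_cast
    ring
  · intro hi
    apply h4.2
    intro j h0
    have : (i : W.K) = (j + 2 : ℕ) := by push_cast; linear_combination h0
    have : i = j + 2 := by exact_mod_cast this
    omega

lemma e_gr {i : ℕ} {a : W.H X} (ha : a ∈ W.gr X i) : W.cl X D * a ∈ W.gr X (i + 2) := by
  rw [add_comm]
  exact W.mul_mem (W.cl_mem F.hD) ha

/-- **The conjecture A.** -/
theorem lefschetzA : LefschetzA W X D := by
  intro j hj z hz
  set P : ℤ → W.H X → Prop := fun d x => x = 0 ∨
    ∃ c : ℕ, (2 * c : ℤ) = X.dim + d ∧ x ∈ algClasses W X c with hP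
  obtain ⟨x, hx, hxz⟩ := exists_preimage' F.sl2 (P := P) (fun d => Or.inl rfl)
    (by
      rintro d x y (rfl | ⟨c, hc, hx⟩) (rfl | ⟨c', hc', hy⟩)
      · exact Or.inl (add_zero 0)
      · rw [zero_add]; exact Or.inr ⟨c', hc', hy⟩
      · rw [add_zero]; exact Or.inr ⟨c, hc, hx⟩
      · obtain rfl : c = c' := by omega
        exact Or.inr ⟨c, hc, alg_add hx hy⟩)
    (by
      rintro q d x (rfl | ⟨c, hc, hx⟩)
      · exact Or.inl (smul_zero _)
      · exact Or.inr ⟨c, hc, alg_smul q hx⟩)
    (by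
      rintro d x (rfl | ⟨c, hc, hx⟩)
      · exact Or.inl (map_zero _)
      · refine Or.inr ⟨c + 1, by push_cast; omega, ?_⟩
        rw [add_comm c 1]
        exact alg_mul ⟨D, F.hD, rfl⟩ hx)
    (by
      rintro d x (rfl | ⟨c, hc, hx⟩)
      · exact Or.inl (map_zero _)
      · have h1 := F.f_gr (alg_gr hx)
        rcases Nat.eq_zero_or_pos c with rfl | h0
        · exact Or.inl (h1.2 (by omega))
        · refine Or.inr ⟨c - 1, by omega, ?_⟩
          exact (F.aop.apply (AS.of hx)).alg (h1.1 (2 * (c - 1)) (by omega)))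
    (by
      rintro d x (rfl | ⟨c, hc, hx⟩)
      · rw [map_zero, smul_zero]
      · rw [wt_gr (alg_gr hx)]
        congr 1
        have : ((2 * c : ℤ) : W.K) = ((X.dim + d : ℤ) : W.K) := by rw [hc]
        push_cast at this ⊢
        linear_combination this)
    (X.dim - 2 * j) (y := W.cl X z)
    (Or.inr ⟨X.dim - j, by omega, ⟨z, hz, rfl⟩⟩)
  rcases hx with rfl | ⟨c, hc, z', hz', rfl⟩
  · refine ⟨0, SmVar.IsCyc.zero _ _, ?_⟩
    rw [cl_divPow, map_zero]
    exact hxz
  · obtain rfl : c = j := by omega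
    exact ⟨z', hz', by rw [cl_divPow]; exact hxz⟩

/-- The product of two frames. -/
lemma prod {E : Y.Cycles} {f' : Module.End W.K (W.H Y)} (G : Fr W Y E f') :
    Fr W (X.prod Y) (ops.pull (fst X Y) D + ops.pull (snd X Y) E) (extSum W f f') where
  hD := SmVar.IsCyc.add (ops.pull_mem _ F.hD) (ops.pull_mem _ G.hD)
  sl2 := by
    rw [wt_prod, mulLeft_prod G.hD]
    exact sl2_prod F.sl2 G.sl2
  aop := (F.aop.ext AOp.one).add (AOp.one.ext G.aop)

lemma st_AS {x : W.H X} (hx : AS W X x) : AS W X (st W X D f x) := by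
  refine AS.ind (p := fun x => AS W X (st W X D f x)) ?_ ?_ hx
  · intro j x hx
    rw [st_apply (alg_gr hx)]
    have := (F.wop_aop.apply (AS.of hx)).smul (sg (2 * j) : ℚ)
    simpa using this
  · intro a b ha hb; rw [map_add]; exact ha.add hb

lemma bf_rat {x y : W.H X} (hx : AS W X x) (hy : AS W X y) : ∃ q : ℚ, bf W X D f x y = q := by
  rw [bf_apply]
  exact (hx.mul (F.st_AS hy)).tr

lemma bf_deg {i j : ℕ} {a b : W.H X} (ha : a ∈ W.gr X i) (hb : b ∈ W.gr X j) (hij : i ≠ j) :
    bf W X D f a b = 0 := by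
  by_cases hj : j ≤ 2 * X.dim
  · rw [bf_apply, st_apply hb, mul_smul_comm, map_smul,
      W.tr_eq_zero (W.mul_mem ha (F.w_mem hj hb)) (by omega), smul_zero]
  · rw [W.gr_eq_bot X j (by omega)] at hb
    rw [(Submodule.mem_bot _).1 hb, map_zero]

omit F in
lemma AS_sum {x : W.H X} (hx : AS W X x) :
    x = ∑ j ∈ Finset.range (X.dim + 1), proj (W.isInternal X) (2 * j) x := by
  refine AS.ind (p := fun x => x = ∑ j ∈ Finset.range (X.dim + 1),
    proj (W.isInternal X) (2 * j) x) ?_ ?_ hx
  · intro j x hx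
    by_cases hj : j ≤ X.dim
    · rw [Finset.sum_eq_single j]
      · exact (proj_same _ (alg_gr hx)).symm
      · intro i _ hi
        exact proj_ne _ (alg_gr hx) (by omega)
      · intro h0
        exact absurd (Finset.mem_range.2 (by omega)) h0
    · have h1 := alg_gr hx
      rw [W.gr_eq_bot X _ (by omega)] at h1
      rw [(Submodule.mem_bot _).1 h1]
      simp
  · intro a b ha hb
    simp only [map_add, Finset.sum_add_distrib]
    rw [← ha, ← hb]

/-- **Positivity of the form on the algebraic classes.** -/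
theorem bf_pos (hH : HodgeType W X D) {x : W.H X} (hx : AS W X x) (hx0 : x ≠ 0) :
    ∃ q : ℚ, 0 < q ∧ bf W X D f x x = q := by
  classical
  have hC := algPart F.hD F.lefschetzA hH
  have t := F.sl2
  set L : Module.End W.K (W.H X) := LinearMap.mulLeft W.K (W.cl X D) with hL
  have hw1 : wey L f * L = -(f * wey L f) := wey_e t
  have hw3 : ∀ (m : ℕ) (v : W.H X), f v = 0 → wt (W.isInternal X) X.dim v = -(m : W.K) • v →
      wey L f v = ((m.factorial : W.K)⁻¹) • (L ^ m) v := fun m v hv hm => wey_lowest t hv hm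
  have hHw : ∀ i, ∀ a ∈ W.gr X i, wt (W.isInternal X) X.dim a = ((i : W.K) - X.dim) • a :=
    fun i a ha => wt_gr ha
  have hlow : ∀ i ≤ X.dim, ∀ a ∈ W.gr X i, (L ^ (X.dim - i + 1)) a = 0 → f a = 0 := by
    intro i hi a ha h0
    refine t.f_eq_zero (M := X.dim - i) ?_ h0
    rw [hHw i a ha, Nat.cast_sub hi]
    congr 1
    ring
  have key : ∀ j, ∃ q : ℚ, 0 ≤ q ∧ (proj (W.isInternal X) (2 * j) x ≠ 0 → 0 < q) ∧
      bf W X D f (proj (W.isInternal X) (2 * j) x) (proj (W.isInternal X) (2 * j) x) = q := by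
    intro j
    have h1 := hx.proj j
    by_cases h0 : proj (W.isInternal X) (2 * j) x = 0
    · exact ⟨0, le_rfl, fun h => absurd h0 h, by rw [h0]; simp⟩
    obtain ⟨s, hs, hs'⟩ := hC.weyl_pos t hw1 hw3 hlow hHw (mulLeft_isHom F.hD) W_hbd h1 h0
    refine ⟨(-1) ^ j * s, hs'.le, fun _ => hs', ?_⟩
    rw [bf_apply, st_apply (alg_gr h1), mul_smul_comm, map_smul, ← bil_apply]
    rw [hL] at hs
    rw [hs, sg_two_mul, smul_eq_mul]
    push_cast
    rfl
  choose q hq0 hq1 hq2 using key
  refine ⟨∑ j ∈ Finset.range (X.dim + 1), q j, ?_, ?_⟩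
  · have hex : ∃ j ∈ Finset.range (X.dim + 1), proj (W.isInternal X) (2 * j) x ≠ 0 := by
      by_contra h0
      push Not at h0
      apply hx0
      rw [AS_sum hx, Finset.sum_eq_zero h0]
    obtain ⟨j, hj, hj0⟩ := hex
    exact Finset.sum_pos' (fun b hb => hq0 b) ⟨j, hj, hq1 j hj0⟩
  · have h1 : bf W X D f x x = bf W X D f
        (∑ j ∈ Finset.range (X.dim + 1), proj (W.isInternal X) (2 * j) x)
        (∑ j ∈ Finset.range (X.dim + 1), proj (W.isInternal X) (2 * j) x) := by
      rw [← AS_sum hx]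
    rw [h1, map_sum (bf W X D f), LinearMap.sum_apply, Rat.cast_sum]
    apply Finset.sum_congr rfl
    intro j hj
    rw [map_sum, Finset.sum_eq_single j, hq2]
    · intro i _ hi
      exact F.bf_deg (proj_mem _ _ _) (proj_mem _ _ _) (by omega)
    · intro h0; exact absurd hj h0

/-- The form on a product. -/
theorem bf_ext {E : Y.Cycles} {f' : Module.End W.K (W.H Y)} (G : Fr W Y E f') (a a' : W.H X)
    (b b' : W.H Y) :
    bf W (X.prod Y) (ops.pull (fst X Y) D + ops.pull (snd X Y) E) (extSum W f f')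
      (ext W a b) (ext W a' b') = bf W X D f a a' * bf W Y E f' b b' := by
  refine gr_induction (W.isInternal Y) (p := fun b => bf W (X.prod Y)
    (ops.pull (fst X Y) D + ops.pull (snd X Y) E) (extSum W f f')
      (ext W a b) (ext W a' b') = bf W X D f a a' * bf W Y E f' b b') ?_ ?_ b
  swap
  · intro b c hb hc
    rw [show ext W a (b + c) = ext W a b + ext W a c by simp only [ext, map_add, mul_add],
      map_add, LinearMap.add_apply, hb, hc, map_add, LinearMap.add_apply, mul_add]
  intro j b hb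
  refine gr_induction (W.isInternal X) (p := fun a' => bf W (X.prod Y)
    (ops.pull (fst X Y) D + ops.pull (snd X Y) E) (extSum W f f')
      (ext W a b) (ext W a' b') = bf W X D f a a' * bf W Y E f' b b') ?_ ?_ a'
  swap
  · intro a' c hb hc
    rw [show ext W (a' + c) b' = ext W a' b' + ext W c b' by simp only [ext, map_add, add_mul],
      map_add, hb, hc, map_add, add_mul]
  intro i' a' ha'
  refine gr_induction (W.isInternal Y) (p := fun b' => bf W (X.prod Y)
    (ops.pull (fst X Y) D + ops.pull (snd X Y) E) (extSum W f f')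
      (ext W a b) (ext W a' b') = bf W X D f a a' * bf W Y E f' b b') ?_ ?_ b'
  swap
  · intro b' c hb hc
    rw [show ext W a' (b' + c) = ext W a' b' + ext W a' c by simp only [ext, map_add, mul_add],
      map_add, hb, hc, map_add, mul_add]
  intro j' b' hb'
  have hmem : ext W a' b' ∈ W.gr (X.prod Y) (i' + j') :=
    W.mul_mem (W.map_mem _ ha') (W.map_mem _ hb')
  by_cases hi' : i' ≤ 2 * X.dim
  swap
  · rw [W.gr_eq_bot X i' (by omega)] at ha'
    rw [(Submodule.mem_bot _).1 ha']
    simp [ext]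
  by_cases hjj : j = j'
  · subst hjj
    rw [bf_apply, st_apply hmem, mul_smul_comm, map_smul, ext, ext,
      form_mul F.sl2 G.sl2 G.hD hb (F.w_mem hi' ha'), bf_apply, bf_apply, st_apply ha',
      st_apply hb', mul_smul_comm, mul_smul_comm, map_smul, map_smul, sg_add]
    simp only [smul_eq_mul]
    have h1 : (-1 : W.K) ^ (j * (2 * X.dim - i')) = (-1) ^ (i' * j) := by
      have h2 : (-1 : W.K) ^ (j * (2 * X.dim - i')) * (-1) ^ (i' * j) = 1 := by
        rw [← pow_add, show j * (2 * X.dim - i') + i' * j = j * (2 * X.dim - i' + i') by ring,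
          show 2 * X.dim - i' + i' = 2 * X.dim by omega, mul_left_comm, pow_mul]
        simp
      have h3 : (-1 : W.K) ^ (i' * j) * (-1) ^ (i' * j) = 1 := by rw [← mul_pow]; simp
      calc (-1 : W.K) ^ (j * (2 * X.dim - i')) =
          (-1 : W.K) ^ (j * (2 * X.dim - i')) * ((-1 : W.K) ^ (i' * j) * (-1) ^ (i' * j)) := by
            rw [h3, mul_one]
        _ = _ := by rw [← mul_assoc, h2, one_mul]
    rw [h1]
    push_cast
    have h3 : (-1 : W.K) ^ (i' * j) * (-1) ^ (i' * j) = 1 := by rw [← mul_pow]; simp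
    linear_combination ((sg i' : W.K) * (sg j : W.K) * (W.tr X (a * wop W X D f a') *
      W.tr Y (b * wop W Y E f' b'))) * h3
  · rw [G.bf_deg hb hb' hjj, mul_zero, bf_apply, st_apply hmem, mul_smul_comm, map_smul, ext,
      ext, form_mul F.sl2 G.sl2 G.hD hb (F.w_mem hi' ha')]
    have h0 := G.bf_deg hb hb' hjj
    rw [bf_apply, st_apply hb', mul_smul_comm, map_smul, smul_eq_mul] at h0
    rcases mul_eq_zero.1 h0 with h1 | h1
    · exfalso
      have h2 : (sg j' : W.K) * (sg j' : W.K) = 1 := by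
        have := congrArg (Int.cast (R := W.K)) (sg_sq j')
        push_cast at this
        exact this
      rw [h1, mul_zero] at h2
      exact zero_ne_one h2
    · rw [h1]; simp

/-- The value of the form on a primitive algebraic class. -/
lemma form_prim {j : ℕ} (hj : 2 * j ≤ X.dim) {z : X.Cycles} (hz : X.IsCyc j z)
    (hprim : W.cl X (divPow ops D (X.dim - 2 * j + 1) z) = 0) :
    bf W X D f (W.cl X z) (W.cl X z) = (((-1) ^ j * (((X.dim - 2 * j).factorial : ℚ)⁻¹ *
        X.V.degCycle (ops.mul z (divPow ops D (X.dim - 2 * j) z))) : ℚ) : W.K) := by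
  set L : Module.End W.K (W.H X) := LinearMap.mulLeft W.K (W.cl X D) with hLdef
  have hcg : W.cl X z ∈ W.gr X (2 * j) := W.cl_mem hz
  have hwt : wt (W.isInternal X) X.dim (W.cl X z) =
      -((X.dim - 2 * j : ℕ) : W.K) • W.cl X z := by
    rw [wt, scal_apply _ _ hcg, node]
    congr 1
    rw [Nat.cast_sub hj]
    push_cast
    ring
  have hfz : f (W.cl X z) = 0 := by
    apply F.sl2.f_eq_zero hwt
    rw [← cl_divPow]
    exact hprim
  have h4 := wey_lowest F.sl2 hfz hwt
  rw [bf_apply, st_apply hcg, wop, h4, smul_comm, mul_smul_comm, map_smul, mul_smul_comm,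
    map_smul, ← cl_divPow, ← W.cl_mul, W.tr_cl, sg_two_mul]
  · simp only [smul_eq_mul]
    push_cast
    ring
  · have := ops.mul_mem hz (divPow_mem (ops := ops) F.hD (X.dim - 2 * j) hz)
    rwa [show j + (j + (X.dim - 2 * j)) = X.dim by omega] at this

end Fr

end Pool.Agent.W552
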