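import Pool.Agent.H88.L.H281R3.HT.Defs

/-!
# Products of several polarized varieties and products of classes from pairs of factors
-/

open CategoryTheory AlgebraicGeometry

universe u v w

namespace Pool.Agent.W552

open Pool.Agent.H914 Pool.Agent.H914.VarClass Pool.Agent.H914.VarClass.Obj
  Pool.Agent.H914.WeilCohomology Pool.Agent.H281R3.HT

variable {k : Type u} [Field k] {𝒱 : VarClass k}

/-- The product `P 0 × (P 1 × (⋯ × P n))`, with the sum of the pull-backs of the divisors. -/
noncomputable def nest (ops : CycleOps 𝒱) :
    (n : ℕ) → (Fin (n + 1) → Polarized 𝒱) → Polarized 𝒱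
  | 0, P => P 0
  | n + 1, P => (P 0).prod ops (nest ops n (fun i => P i.succ))

/-- The projection of the product `P 0 × (P 1 × (⋯ × P n))` to the factor `P a`. -/
noncomputable def prj (ops : CycleOps 𝒱) : (n : ℕ) → (P : Fin (n + 1) → Polarized 𝒱) →
    (a : Fin (n + 1)) → ((nest ops n P).X ⟶ (P a).X)
  | 0, P, a => Fin.cases (motive := fun a => (P 0).X ⟶ (P a).X) (𝟙 (P 0).X)
      (fun i => i.elim0) a
  | n + 1, P, a => Fin.cases (motive := fun a => (nest ops (n + 1) P).X ⟶ (P a).X)
      (fst (P 0).X (nest ops n (fun i => P i.succ)).X)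
      (fun i => snd (P 0).X (nest ops n (fun i => P i.succ)).X ≫
        prj ops n (fun i => P i.succ) i) a

/-- The products of pull-backs, along the projections of `P 0 × (P 1 × (⋯ × P n))`, of classes of
algebraic cycles on the factors `P a` and on the products `P a × P b` of two different factors,
where no factor is used twice; `S` is the set of the factors which are used. -/
inductive IsMatching {ops : CycleOps 𝒱} (W : WeilCohomology.{u, v} ops) {n : ℕ}
    (P : Fin (n + 1) → Polarized 𝒱) : Finset (Fin (n + 1)) → W.H (nest ops n P).X → Prop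
  | one : IsMatching W P ∅ 1
  | single {S c a j x} : IsMatching W P S c → a ∉ S → x ∈ algClasses W (P a).X j →
      IsMatching W P (insert a S) (W.map (prj ops n P a) x * c)
  | pair {S c a b j x} : IsMatching W P S c → a ∉ S → b ∉ S → a ≠ b →
      x ∈ algClasses W ((P a).X.prod (P b).X) j →
      IsMatching W P (insert a (insert b S))
        (W.map (Obj.lift (prj ops n P a) (prj ops n P b)) x * c)

/-- The linear combinations, with coefficients in the coefficient field of the cohomology, of the
products of pull-backs of algebraic classes on the factors and on the products of two factors. -/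
noncomputable def matchingSpan {ops : CycleOps 𝒱} (W : WeilCohomology.{u, v} ops) {n : ℕ}
    (P : Fin (n + 1) → Polarized 𝒱) : Submodule W.K (W.H (nest ops n P).X) :=
  Submodule.span W.K {c | ∃ S, IsMatching W P S c}

/-- The standard conjecture of Hodge type for the cycles on `X` whose class lies in `M`: for
`2 j ≤ n = dim X` and every cycle `z` of codimension `j` whose class lies in `M`, is primitive and
is not zero, the sign of the intersection number `z · z · D ^ (n - 2 j)` is `(-1) ^ j`. -/
def HodgeTypeOn {ops : CycleOps 𝒱} (W : WeilCohomology.{u, v} ops) (X : 𝒱.Obj) (D : X.Cycles)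
    (M : Submodule W.K (W.H X)) : Prop :=
  ∀ j, 2 * j ≤ X.dim → ∀ z, X.IsCyc j z → W.cl X z ∈ M →
    W.cl X (divPow ops D (X.dim - 2 * j + 1) z) = 0 → W.cl X z ≠ 0 →
    0 < (-1 : ℚ) ^ j * X.V.degCycle (ops.mul z (divPow ops D (X.dim - 2 * j) z))

/-- The standard conjecture `D` for the cycles on `X` whose class lies in `M`: if the intersection
numbers of such a cycle with all cycles of the complementary codimension vanish, its class is
zero. -/
def HomEqNumOn {ops : CycleOps 𝒱} (W : WeilCohomology.{u, v} ops) (X : 𝒱.Obj)
    (M : Submodule W.K (W.H X)) : Prop :=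
  ∀ j ≤ X.dim, ∀ z, X.IsCyc j z → W.cl X z ∈ M →
    (∀ w, X.IsCyc (X.dim - j) w → X.V.degCycle (ops.mul z w) = 0) → W.cl X z = 0

end Pool.Agent.W552
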